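import Pool.Agent.K7.H66.TD.Base

set_option autoImplicit false

namespace Pool.Agent.K7.H47.TD

open Finset Pool.Agent.K7.H66.TD

/-- The parity code of the first `k` steps. -/
def code : ℕ → ℕ → ℕ
  | 0, _ => 0
  | k + 1, N => code k N + 2 ^ k * (T^[k] N % 2)

theorem code_lt (k N : ℕ) : code k N < 2 ^ k := by
  induction k with
  | zero => simp [code]
  | succ k ih =>
    have h2 : T^[k] N % 2 < 2 := Nat.mod_lt _ (by norm_num)
    simp only [code]
    have : 2 ^ k * (T^[k] N % 2) ≤ 2 ^ k * 1 := Nat.mul_le_mul_left _ (by omega)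
    rw [pow_succ]
    omega

theorem ones_one (b : ℕ) (hb : b < 2) : ones 1 b = b := by
  interval_cases b <;> simp [ones]

theorem rr_one (b : ℕ) (hb : b < 2) : rr 1 b = b := by
  interval_cases b <;> simp [rr]

theorem ones_code (k N : ℕ) : ones (k + 1) (code (k + 1) N) = ones k (code k N) + T^[k] N % 2 := by
  have h2 : T^[k] N % 2 < 2 := Nat.mod_lt _ (by norm_num)
  rw [code, ones_append k 1 _ _ (code_lt k N), ones_one _ h2]

theorem rr_code (k N : ℕ) : rr (k + 1) (code (k + 1) N)
    = 3 ^ (T^[k] N % 2) * rr k (code k N) + 2 ^ k * (T^[k] N % 2) := by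
  have h2 : T^[k] N % 2 < 2 := Nat.mod_lt _ (by norm_num)
  rw [code, rr_append k 1 _ _ (code_lt k N), ones_one _ h2, rr_one _ h2]

theorem two_mul_T (M : ℕ) : 2 * T M = 3 ^ (M % 2) * M + M % 2 := by
  unfold T
  rcases Nat.mod_two_eq_zero_or_one M with h | h
  · rw [if_pos h, h]; simp; omega
  · rw [if_neg (by omega), h]; simp; omega

theorem iter_eq (k N : ℕ) : 2 ^ k * T^[k] N = 3 ^ (ones k (code k N)) * N + rr k (code k N) := by
  induction k with
  | zero => simp [ones, rr]
  | succ k ih =>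
    rw [ones_code, rr_code, Function.iterate_succ_apply']
    have h := two_mul_T (T^[k] N)
    generalize T^[k] N % 2 = b at *
    calc 2 ^ (k + 1) * T (T^[k] N) = 2 ^ k * (2 * T (T^[k] N)) := by ring
      _ = 2 ^ k * (3 ^ b * T^[k] N + b) := by rw [h]
      _ = 3 ^ b * (2 ^ k * T^[k] N) + 2 ^ k * b := by ring
      _ = 3 ^ b * (3 ^ (ones k (code k N)) * N + rr k (code k N)) + 2 ^ k * b := by rw [ih]
      _ = _ := by ring

theorem T_lt (M c : ℕ) (h : M < 2 * c) : T M < 3 ^ (M % 2) * c := by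
  unfold T
  rcases Nat.mod_two_eq_zero_or_one M with h1 | h1
  · rw [if_pos h1, h1]; simp; omega
  · rw [if_neg (by omega), h1]; simp; omega

theorem iter_lt (k N c : ℕ) (h : N < 2 ^ k * c) : T^[k] N < 3 ^ (ones k (code k N)) * c := by
  induction k generalizing c with
  | zero => simpa [ones] using h
  | succ k ih =>
    rw [ones_code, Function.iterate_succ_apply']
    have h1 : T^[k] N < 3 ^ (ones k (code k N)) * (2 * c) := ih (2 * c) (by rw [pow_succ] at h; rw [← mul_assoc]; exact h)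
    have h2 := T_lt (T^[k] N) (3 ^ (ones k (code k N)) * c) (by rw [mul_left_comm]; exact h1)
    rw [pow_add]
    calc _ < _ := h2
      _ = _ := by ring

theorem iter_B (B : ℕ → Prop) (hB : ∀ N, B N → B (T N)) (k N : ℕ) (h : B N) : B (T^[k] N) := by
  induction k with
  | zero => exact h
  | succ k ih => rw [Function.iterate_succ_apply']; exact hB _ ih

theorem iter_cast (k m N ρ : ℕ) (hρ : N % 3 ^ m = ρ) :
    ((T^[k] N : ℕ) : ZMod (3 ^ (ones k (code k N) + m))) =
      cw (ones k (code k N) + m) k (ρ : ZMod (3 ^ (ones k (code k N) + m))) (code k N) := by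
  have h := iter_eq k N
  unfold cw
  generalize ones k (code k N) = o at *
  have hu : ((2 : ZMod (3 ^ (o + m))) ^ k) * h2 (o + m) ^ k = 1 := two_pow_h2 _ _
  have h3 : ((3 : ZMod (3 ^ (o + m))) ^ o) * (N : ZMod (3 ^ (o + m))) = 3 ^ o * (ρ : ZMod (3 ^ (o + m))) := by
    have e : N = ρ + 3 ^ m * (N / 3 ^ m) := by rw [← hρ]; exact (Nat.mod_add_div _ _).symm
    have e2 : 3 ^ o * N = 3 ^ o * ρ + 3 ^ (o + m) * (N / 3 ^ m) := by
      conv_lhs => rw [e]
      ring
    have e3 := congrArg (fun z : ℕ => (z : ZMod (3 ^ (o + m)))) e2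
    push_cast at e3
    rw [e3]
    have : ((3 : ZMod (3 ^ (o + m))) ^ (o + m)) = 0 := by
      have := ZMod.natCast_self (3 ^ (o + m))
      push_cast at this
      exact this
    rw [this]; ring
  have h4 := congrArg (fun z : ℕ => (z : ZMod (3 ^ (o + m)))) h
  push_cast at h4
  rw [← h3, ← h4]
  calc ((T^[k] N : ℕ) : ZMod (3 ^ (o + m))) = (((2 : ZMod (3 ^ (o + m))) ^ k) * h2 (o + m) ^ k) * (T^[k] N : ℕ) := by
        rw [hu, one_mul]
    _ = _ := by ring

theorem blk : StBlk := by
  classical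
  intro B hB k m A ρ hρ
  unfold Dn
  rw [← Finset.card_sigma]
  apply Finset.card_le_card_of_injOn (fun N => (⟨code k N, T^[k] N⟩ : (_ : ℕ) × ℕ))
  · intro N hN
    simp only [Finset.coe_filter, Finset.mem_range, Set.mem_setOf_eq] at hN
    obtain ⟨hN1, hN2, hN3⟩ := hN
    simp only [Finset.coe_sigma, Set.mem_sigma_iff, Finset.mem_coe, Finset.mem_range, Finset.mem_filter]
    refine ⟨code_lt k N, ?_, iter_B B hB k N hN2, ?_⟩
    · have := iter_lt k N (3 ^ m * A) (by rw [← mul_assoc]; exact hN1)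
      rw [pow_add, mul_assoc]; exact this
    · rw [← iter_cast k m N ρ hN3, ZMod.val_natCast]
  · intro N hN N' hN' h
    simp only [Sigma.mk.injEq] at h
    obtain ⟨h1, h2⟩ := h
    have h2' := eq_of_heq h2
    have e1 := iter_eq k N
    have e2 := iter_eq k N'
    rw [h1, h2', e2] at e1
    have h3 : 3 ^ ones k (code k N') * N' = 3 ^ ones k (code k N') * N := by omega
    exact (Nat.eq_of_mul_eq_mul_left (by positivity) h3).symm

end Pool.Agent.K7.H47.TD
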